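import Pool.Agent.J4H23.VD.Stm
import Pool.Agent.J4H28.SB.Avo

/-!
Project VD, job (APR): random graphs have no large independent sets.
-/

set_option autoImplicit false

namespace Pool.Agent.J4H53.VD

open Finset Pool.Agent.J4H23.SB Pool.Agent.J4H23.VD Pool.Agent.J4H28.SB

/-- the pairs `u < v` of a set -/
def PS {m : ℕ} (A : Finset (Fin m)) : Finset (Fin m × Fin m) :=
  (A ×ˢ A).filter (fun e => e.1 < e.2)

lemma two_card {m : ℕ} (A : Finset (Fin m)) :
    A.card * A.card - A.card ≤ 2 * (PS A).card := by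
  classical
  rw [← Finset.offDiag_card]
  have h : A.offDiag ⊆ PS A ∪ (PS A).image Prod.swap := by
    rintro ⟨u, v⟩ he
    rw [Finset.mem_offDiag] at he
    obtain ⟨hu, hv, hne⟩ := he
    simp only at hu hv hne
    rw [Finset.mem_union]
    rcases lt_or_gt_of_ne hne with h | h
    · left
      exact Finset.mem_filter.2 ⟨Finset.mem_product.2 ⟨hu, hv⟩, h⟩
    · right
      exact Finset.mem_image.2 ⟨(v, u), Finset.mem_filter.2 ⟨Finset.mem_product.2 ⟨hv, hu⟩, h⟩, rfl⟩
  refine (Finset.card_le_card h).trans ((Finset.card_union_le _ _).trans ?_)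
  have := Finset.card_image_le (s := PS A) (f := Prod.swap)
  omega

lemma disj_PS {m : ℕ} (A : Finset (Fin m)) (X : Finset (Fin m × Fin m))
    (h : ∀ u ∈ A, ∀ v ∈ A, u < v → (u, v) ∉ X) : Disjoint X (PS A) := by
  rw [Finset.disjoint_right]
  rintro ⟨u, v⟩ he
  obtain ⟨h1, h2⟩ := Finset.mem_filter.1 he
  rw [Finset.mem_product] at h1
  exact h u h1.1 v h1.2 h2

/-- the union bound -/
lemma fail_le {m : ℕ} {q : Fin m × Fin m → ℝ} {l : ℝ} (h0 : 0 ≤ l) (h1 : l ≤ 1)
    (hq : ∀ e, l ≤ q e ∧ q e ≤ 1) (s : ℕ) :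
    1 - pr q (fun X => ∀ A : Finset (Fin m), (∀ u ∈ A, ∀ v ∈ A, u < v → (u, v) ∉ X) →
      A.card ≤ s) ≤ ∑ A ∈ Finset.powersetCard (s + 1) (univ : Finset (Fin m)),
        (1 - l) ^ (PS A).card := by
  classical
  conv_lhs => rw [pr_eq, ← sum_wt q, ← Finset.sum_sub_distrib]
  have hb : ∀ A : Finset (Fin m), ∑ X, (if Disjoint X (PS A) then wt q X else 0) ≤
      (1 - l) ^ (PS A).card := by
    intro A
    have := pr_avoid h0 h1 hq (PS A)
    rwa [pr_eq] at this
  refine le_trans ?_ (Finset.sum_le_sum fun A _ => hb A)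
  rw [Finset.sum_comm]
  refine Finset.sum_le_sum fun X _ => ?_
  have hw := wt_nonneg h0 hq X
  have hnn : ∀ A ∈ Finset.powersetCard (s + 1) (univ : Finset (Fin m)),
      0 ≤ (if Disjoint X (PS A) then wt q X else 0) := by
    intro A _
    split_ifs
    · exact hw
    · exact le_rfl
  by_cases hP : ∀ A : Finset (Fin m), (∀ u ∈ A, ∀ v ∈ A, u < v → (u, v) ∉ X) → A.card ≤ s
  · rw [if_pos hP, sub_self]
    exact Finset.sum_nonneg hnn
  · rw [if_neg hP, sub_zero]
    push Not at hP
    obtain ⟨A, hA, hs⟩ := hP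
    obtain ⟨B, hBA, hB⟩ := Finset.exists_subset_card_eq (Nat.succ_le_of_lt hs)
    have hmem : B ∈ Finset.powersetCard (s + 1) (univ : Finset (Fin m)) :=
      Finset.mem_powersetCard.2 ⟨Finset.subset_univ _, hB⟩
    have hd : Disjoint X (PS B) :=
      disj_PS B X fun u hu v hv huv => hA u (hBA hu) v (hBA hv) huv
    have := Finset.single_le_sum hnn hmem
    rwa [if_pos hd] at this

theorem t_APR : S_APR := by
  intro l k hl0 hl1
  obtain ⟨C, hC⟩ := exists_nat_ge (2 * (1 + (k : ℝ)) / l)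
  refine ⟨C, 1, fun m hm q hq => ?_⟩
  have hm1 : (1 : ℝ) ≤ m := by exact_mod_cast hm
  have hm0 : (0 : ℝ) < m := by linarith
  have hf := fail_le hl0.le hl1 hq (C * m.size)
  obtain ⟨s, hs⟩ : ∃ s, s = C * m.size := ⟨_, rfl⟩
  rw [← hs] at hf ⊢
  have hterm : ∀ A ∈ Finset.powersetCard (s + 1) (univ : Finset (Fin m)),
      (1 - l) ^ (PS A).card ≤ (Real.exp (-(l * s / 2))) ^ (s + 1) := by
    intro A hA
    have hcard := (Finset.mem_powersetCard.1 hA).2
    have h2 := two_card A
    rw [hcard] at h2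
    have h3 : (s + 1) * (s + 1) - (s + 1) = (s + 1) * s := by
      rw [Nat.mul_succ]
      omega
    rw [h3] at h2
    have h4 : ((s : ℝ) + 1) * s ≤ 2 * ((PS A).card : ℝ) := by exact_mod_cast h2
    have h5 : (1 - l) ≤ Real.exp (-l) := by
      have := Real.add_one_le_exp (-l)
      linarith
    calc (1 - l) ^ (PS A).card ≤ (Real.exp (-l)) ^ (PS A).card :=
          pow_le_pow_left₀ (by linarith) h5 _
      _ = Real.exp ((PS A).card * (-l)) := by rw [Real.exp_nat_mul]
      _ ≤ Real.exp (((s + 1 : ℕ) : ℝ) * (-(l * s / 2))) := by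
          refine Real.exp_le_exp.2 ?_
          push_cast
          nlinarith
      _ = _ := by rw [Real.exp_nat_mul]
  have hsum := Finset.sum_le_sum hterm
  rw [Finset.sum_const, Finset.card_powersetCard, Finset.card_univ, Fintype.card_fin,
    nsmul_eq_mul] at hsum
  have hch : ((m.choose (s + 1) : ℕ) : ℝ) ≤ (m : ℝ) ^ (s + 1) := by
    exact_mod_cast Nat.choose_le_pow m (s + 1)
  have hb : (m : ℝ) * Real.exp (-(l * s / 2)) ≤ 1 / (m : ℝ) ^ k := by
    have hsize : Real.log m ≤ m.size := by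
      have h1 : (m : ℝ) ≤ 2 ^ m.size := by exact_mod_cast (Nat.lt_size_self m).le
      have h2 := Real.log_le_log hm0 h1
      rw [Real.log_pow] at h2
      have h3 : Real.log 2 ≤ 1 := by
        have := Real.log_two_lt_d9
        linarith
      have h4 : (0 : ℝ) ≤ m.size := by positivity
      nlinarith
    have hlog0 : 0 ≤ Real.log m := Real.log_nonneg hm1
    have h6 : (1 + (k : ℝ)) * Real.log m ≤ l * s / 2 := by
      have h7 : 2 * (1 + (k : ℝ)) ≤ C * l := by
        rw [div_le_iff₀ hl0] at hC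
        exact hC
      have h8 : (s : ℝ) = C * m.size := by
        rw [hs]
        push_cast
        ring
      rw [h8]
      have h9 : (0 : ℝ) ≤ C * l := by positivity
      have h10 : 2 * (1 + (k : ℝ)) * Real.log m ≤ C * l * m.size :=
        mul_le_mul h7 hsize hlog0 h9
      linarith
    calc (m : ℝ) * Real.exp (-(l * s / 2)) ≤ m * Real.exp (-((1 + (k : ℝ)) * Real.log m)) := by
          refine mul_le_mul_of_nonneg_left (Real.exp_le_exp.2 (by linarith)) hm0.le
      _ = 1 / (m : ℝ) ^ k := by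
          have : Real.exp (-((1 + (k : ℝ)) * Real.log m)) = ((m : ℝ) ^ (k + 1))⁻¹ := by
            rw [Real.exp_neg]
            congr 1
            have h11 : (1 + (k : ℝ)) * Real.log m = ((k + 1 : ℕ) : ℝ) * Real.log m := by
              push_cast
              ring
            rw [h11, Real.exp_nat_mul, Real.exp_log hm0]
          rw [this, pow_succ]
          field_simp
  have hpow : ((m : ℝ) * Real.exp (-(l * s / 2))) ^ (s + 1) ≤ 1 / (m : ℝ) ^ k := by
    have hle1 : (1 : ℝ) / (m : ℝ) ^ k ≤ 1 := by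
      rw [div_le_one (by positivity)]
      exact one_le_pow₀ hm1
    have hx0 : 0 ≤ (m : ℝ) * Real.exp (-(l * s / 2)) := by positivity
    have hx1 : (m : ℝ) * Real.exp (-(l * s / 2)) ≤ 1 := hb.trans hle1
    calc ((m : ℝ) * Real.exp (-(l * s / 2))) ^ (s + 1) ≤
          ((m : ℝ) * Real.exp (-(l * s / 2))) ^ 1 :=
          pow_le_pow_of_le_one hx0 hx1 (by omega)
      _ ≤ _ := by rw [pow_one]; exact hb
  have hfin : (m.choose (s + 1) : ℝ) * (Real.exp (-(l * s / 2))) ^ (s + 1) ≤ 1 / (m : ℝ) ^ k := by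
    refine le_trans (mul_le_mul_of_nonneg_right hch (by positivity)) ?_
    rw [← mul_pow]
    exact hpow
  linarith

end Pool.Agent.J4H53.VD
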